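import Mathlib

/-!
# A `σ̃`-4-perfect number

The alternating divisor sum `σ̃` is the multiplicative function with
`σ̃(p^r) = p^r - p^(r-1) + ... + (-1)^r`.  We show that
`n = 993803899780063855042560 = 2^13 · 3^8 · 5 · 7^2 · 11 · 13 · 19 · 23 · 37 · 43^2 · 127 · 139`
satisfies `4 σ̃(n) = n`.
-/

namespace Pool.Agent.Results.MP_62401a_nt.FourPerfect

/-- The value of the alternating divisor sum at a prime power `p ^ r`. -/
def altPow (p r : ℕ) : ℤ := ∑ j ∈ Finset.range (r + 1), (-1 : ℤ) ^ j * (p : ℤ) ^ (r - j)

/-- The alternating divisor sum, `σ̃(n) = ∏_{p^r ∥ n} (p^r - p^(r-1) + ... + (-1)^r)`. -/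
def altSigma (n : ℕ) : ℤ := n.factorization.prod fun p r => altPow p r

/-- `n` is `σ̃`-`k`-perfect if `k σ̃(n) = n`. -/
def AltPerfect (k n : ℕ) : Prop := (k : ℤ) * altSigma n = n

theorem altSigma_mul {a b : ℕ} (h : Nat.Coprime a b) :
    altSigma (a * b) = altSigma a * altSigma b := by
  unfold altSigma
  rw [Nat.factorization_mul_of_coprime h]
  exact Finsupp.prod_add_index_of_disjoint h.disjoint_primeFactors _

theorem altSigma_pow {p : ℕ} (hp : p.Prime) {r : ℕ} (_hr : r ≠ 0) :
    altSigma (p ^ r) = altPow p r := by
  unfold altSigma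
  rw [hp.factorization_pow, Finsupp.prod_single_index]
  simp [altPow]

theorem altSigma_step {p r m N : ℕ} {s t : ℤ} (hp : p.Prime) (hr : r ≠ 0)
    (hs : altPow p r = s) (hm : altSigma m = t) (hc : Nat.Coprime (p ^ r) m)
    (hN : p ^ r * m = N) : altSigma N = s * t := by
  rw [← hN, altSigma_mul hc, altSigma_pow hp hr, hs, hm]

theorem altSigma_one : altSigma 1 = 1 := by
  simp [altSigma]

theorem fourPerfect : AltPerfect 4 993803899780063855042560 := by
  have h1 := altSigma_step (p := 2) (r := 13) (m := 1) (N := 8192) (s := 5461) (by norm_num)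
    (by norm_num) (by decide +kernel) altSigma_one (by norm_num) (by norm_num)
  have h2 := altSigma_step (p := 3) (r := 8) (N := 53747712) (s := 4921) (by norm_num)
    (by norm_num) (by decide +kernel) h1 (by norm_num) (by norm_num)
  have h3 := altSigma_step (p := 5) (r := 1) (N := 268738560) (s := 4) (by norm_num)
    (by norm_num) (by decide +kernel) h2 (by norm_num) (by norm_num)
  have h4 := altSigma_step (p := 7) (r := 2) (N := 13168189440) (s := 43) (by norm_num)
    (by norm_num) (by decide +kernel) h3 (by norm_num) (by norm_num)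
  have h5 := altSigma_step (p := 11) (r := 1) (N := 144850083840) (s := 10) (by norm_num)
    (by norm_num) (by decide +kernel) h4 (by norm_num) (by norm_num)
  have h6 := altSigma_step (p := 13) (r := 1) (N := 1883051089920) (s := 12) (by norm_num)
    (by norm_num) (by decide +kernel) h5 (by norm_num) (by norm_num)
  have h7 := altSigma_step (p := 19) (r := 1) (N := 35777970708480) (s := 18) (by norm_num)
    (by norm_num) (by decide +kernel) h6 (by norm_num) (by norm_num)
  have h8 := altSigma_step (p := 23) (r := 1) (N := 822893326295040) (s := 22) (by norm_num)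
    (by norm_num) (by decide +kernel) h7 (by norm_num) (by norm_num)
  have h9 := altSigma_step (p := 37) (r := 1) (N := 30447053072916480) (s := 36) (by norm_num)
    (by norm_num) (by decide +kernel) h8 (by norm_num) (by norm_num)
  have h10 := altSigma_step (p := 43) (r := 2) (N := 56296601131822571520) (s := 1807)
    (by norm_num) (by norm_num) (by decide +kernel) h9 (by norm_num) (by norm_num)
  have h11 := altSigma_step (p := 127) (r := 1) (N := 7149668343741466583040) (s := 126)
    (by norm_num) (by norm_num) (by decide +kernel) h10 (by norm_num) (by norm_num)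
  have h12 := altSigma_step (p := 139) (r := 1) (N := 993803899780063855042560) (s := 138)
    (by norm_num) (by norm_num) (by decide +kernel) h11 (by norm_num) (by norm_num)
  unfold AltPerfect
  rw [h12]
  norm_num

/-- There are an integer `k ≥ 4` and a positive integer `n` with `k σ̃(n) = n`. -/
theorem result : ∃ k n : ℕ, 4 ≤ k ∧ 0 < n ∧ (k : ℤ) * altSigma n = n :=
  ⟨4, 993803899780063855042560, le_refl _, by norm_num, fourPerfect⟩

end Pool.Agent.Results.MP_62401a_nt.FourPerfect
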